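import Pool.Agent.Lib.MP_28303a_al.NT.A.Iface

/-! # Row TACIM: images of maps of acyclic functors are acyclic -/

set_option autoImplicit false
set_option linter.unusedSectionVars false
set_option linter.unusedVariables false

namespace Pool.Agent.NegK.NT.HNN

universe u

open CategoryTheory Limits

namespace Tacim

variable {Γ : Type u} [Group Γ] {T : Sys Γ} (D : T.Tr) {S : Finset (Fin T.m)} {k : Type u} [Ring k]

open Classical in
/-- The map of the sums over the edges. -/
noncomputable def eE {M N : Fn k (T.P S)} (f : M ⟶ N) (j : Fin T.m) (U : T.Box) :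
    (DirectSum (D.E j) fun e => M.obj (Opposite.op (Bx.of (T.up j U (D.ed j e))))) →ₗ[k]
      DirectSum (D.E j) fun e => N.obj (Opposite.op (Bx.of (T.up j U (D.ed j e)))) :=
  DirectSum.lmap fun e => (f.app (Opposite.op (Bx.of (T.up j U (D.ed j e))))).hom

open Classical in
/-- The map of the sums over the vertices. -/
noncomputable def eV {M N : Fn k (T.P S)} (f : M ⟶ N) (j : Fin T.m) (U : T.Box) :
    (DirectSum (D.V j) fun v => M.obj (Opposite.op (Bx.of (T.up j U (D.vt j v))))) →ₗ[k]
      DirectSum (D.V j) fun v => N.obj (Opposite.op (Bx.of (T.up j U (D.vt j v)))) :=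
  DirectSum.lmap fun v => (f.app (Opposite.op (Bx.of (T.up j U (D.vt j v))))).hom

theorem nat {M N : Fn k (T.P S)} (f : M ⟶ N) (j : Fin T.m) (U : T.Box) :
    D.bd N j U ∘ₗ eE D f j U = eV D f j U ∘ₗ D.bd M j U := by
  classical
  refine DirectSum.linearMap_ext k fun e => LinearMap.ext fun x => ?_
  have h1 : ∀ {U V : (Bx (T.P S))ᵒᵖ} (g : U ⟶ V) (x : M.obj U),
      (N.map g).hom ((f.app U).hom x) = (f.app V).hom ((M.map g).hom x) := fun g x => by
    have := f.naturality g
    exact (congrArg (fun h => h.hom x) this).symm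
  simp only [LinearMap.comp_apply, eE, eV, DirectSum.lmap_lof, Sys.Tr.bd,
    DirectSum.toModule_lof, LinearMap.sub_apply, map_sub, h1]

theorem nat_apply {M N : Fn k (T.P S)} (f : M ⟶ N) (j : Fin T.m) (U : T.Box) (x) :
    D.bd N j U (eE D f j U x) = eV D f j U (D.bd M j U x) :=
  congrArg (fun h => h x) (nat D f j U)

theorem surjE {M N : Fn k (T.P S)} (f : M ⟶ N) [Epi f] (j : Fin T.m) (U : T.Box) :
    Function.Surjective (eE D f j U) := by
  classical
  refine (DirectSum.lmap_surjective _).2 fun e => ?_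
  exact (ModuleCat.epi_iff_surjective _).1 inferInstance

theorem surjV {M N : Fn k (T.P S)} (f : M ⟶ N) [Epi f] (j : Fin T.m) (U : T.Box) :
    Function.Surjective (eV D f j U) := by
  classical
  refine (DirectSum.lmap_surjective _).2 fun e => ?_
  exact (ModuleCat.epi_iff_surjective _).1 inferInstance

theorem injE {M N : Fn k (T.P S)} (f : M ⟶ N) [Mono f] (j : Fin T.m) (U : T.Box) :
    Function.Injective (eE D f j U) := by
  classical
  refine (DirectSum.lmap_injective _).2 fun e => ?_
  exact (ModuleCat.mono_iff_injective _).1 inferInstance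

theorem injV {M N : Fn k (T.P S)} (f : M ⟶ N) [Mono f] (j : Fin T.m) (U : T.Box) :
    Function.Injective (eV D f j U) := by
  classical
  refine (DirectSum.lmap_injective _).2 fun e => ?_
  exact (ModuleCat.mono_iff_injective _).1 inferInstance

theorem inj_of_mono {M N : Fn k (T.P S)} (f : M ⟶ N) [Mono f] (j : Fin T.m) (U : T.Box)
    (h : Function.Injective (D.bd N j U)) : Function.Injective (D.bd M j U) := by
  intro x y hxy
  apply injE D f j U
  apply h
  rw [nat_apply, nat_apply, hxy]

theorem surj_of_epi {M N : Fn k (T.P S)} (f : M ⟶ N) [Epi f] (j : Fin T.m) (U : T.Box)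
    (h : Function.Surjective (D.bd M j U)) : Function.Surjective (D.bd N j U) := by
  intro y
  obtain ⟨y, rfl⟩ := surjV D f j U y
  obtain ⟨x, rfl⟩ := h y
  exact ⟨eE D f j U x, nat_apply D f j U x⟩

end Tacim

open Tacim in
theorem tacim : TacimStatement.{u} := by
  intro Γ _ T D S j k _
  refine ⟨?_, ?_, ?_⟩
  · intro M N f hM hN U
    exact ⟨inj_of_mono D (image.ι f) j U (hN U).1,
      surj_of_epi D (factorThruImage f) j U (hM U).2⟩
  · rintro M N ⟨e⟩ hM U
    exact ⟨inj_of_mono D e.inv j U (hM U).1, surj_of_epi D e.hom j U (hM U).2⟩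
  · intro M hM U
    have h : ∀ V, Subsingleton (M.obj V) := fun V =>
      ModuleCat.subsingleton_of_isZero ((Functor.isZero_iff M).1 hM V)
    refine ⟨fun x y _ => ?_, fun y => ⟨0, ?_⟩⟩
    · exact DFinsupp.ext fun e => Subsingleton.elim _ _
    · exact DFinsupp.ext fun v => Subsingleton.elim _ _

end Pool.Agent.NegK.NT.HNN
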